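import Pool.Agent.H.MP_a87fbc_pr.B

open Filter MeasureTheory ProbabilityTheory

namespace Pool.Agent.Results.MP_a87fbc_pr.Conv

/-- Value at the vertex `v` of the game with `t` moves left; `X u` is the cookie on the edge from
`u` to its parent, the children of `v` are `false :: v` and `true :: v`. -/
def V (X : List Bool → ℤ) : ℕ → List Bool → ℤ
  | 0, _ => 0
  | t + 1, v =>
    if Even v.length then
      max (X (false :: v) + V X t (false :: v)) (X (true :: v) + V X t (true :: v))
    else min (X (false :: v) + V X t (false :: v)) (X (true :: v) + V X t (true :: v))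

theorem result {Ω : Type} [MeasurableSpace Ω] (P : Measure Ω) [IsProbabilityMeasure P]
    (X : List Bool → Ω → ℤ) (hm : ∀ v, Measurable (X v)) (hi : iIndepFun X P)
    (h1 : ∀ v, P.real {ω | X v ω = 1} = 1 / 2) (h2 : ∀ v, P.real {ω | X v ω = -1} = 1 / 2) :
    ∃ μ : ProbabilityMeasure ℤ,
      TendstoInDistribution (fun n ω => V (fun v => X v ω) (2 * n) []) atTop id (fun _ => P) μ := by
  have e : ∀ x t v, V x t v = H.MP_a87fbc_pr.V x t v := fun x t => by
    induction t with
    | zero => exact fun _ => rfl
    | succ t ih => intro v; simp only [V, H.MP_a87fbc_pr.V, ih]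
  simpa only [e] using H.MP_a87fbc_pr.main hm hi h1 h2

end Pool.Agent.Results.MP_a87fbc_pr.Conv
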